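import Mathlib

set_option autoImplicit false

/-!
Mean values of the coefficients `χ(n) a_n` of the twists of `L(E/K, s)` by completely multiplicative
functions of modulus at most one (in particular by all Dirichlet characters): statements.
-/

namespace Pool.Agent.Lib.MP_bf61d2_nt.MV59
end Pool.Agent.Lib.MP_bf61d2_nt.MV59

namespace Pool.Agent.Lib.MP_bf61d2_nt.MV59X

open MeasureTheory Set Filter Topology

open MV59

/-- The twisted coefficients. -/
noncomputable def tw {K : Type*} [Field K] [NumberField K] (W : WeierstrassCurve K) (χ : ℕ → ℂ)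
    (n : ℕ) : ℂ := χ n * (W.LFunction n : ℂ)

/-- Completely multiplicative functions of modulus at most one. -/
structure CM (χ : ℕ → ℂ) : Prop where
  norm_le : ∀ n, ‖χ n‖ ≤ 1
  mul : ∀ m n, χ (m * n) = χ m * χ n

end Pool.Agent.Lib.MP_bf61d2_nt.MV59X
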