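import Mathlib
import Pool.Agent.Lib.MP_bf61d2_nt.Trim.Analytic
import Pool.Agent.Lib.MP_bf61d2_nt.Trim.MV59X.StmtsX

set_option autoImplicit false

/-!
Twisted mean values: the trivial bounds, the convolution identity, the logarithmic derivative.
-/

namespace NumberField
end NumberField

namespace Pool.Agent.Lib.MP_bf61d2_nt.Hardy
end Pool.Agent.Lib.MP_bf61d2_nt.Hardy

namespace Pool.Agent.Lib.MP_bf61d2_nt.MV59
end Pool.Agent.Lib.MP_bf61d2_nt.MV59

namespace Pool.Agent.Lib.MP_bf61d2_nt.MV59X

open MeasureTheory Set Filter Topology NumberField IsDedekindDomain Hardy MV59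

section

variable {K : Type*} [Field K] [NumberField K] (W : WeierstrassCurve K)

lemma norm_tw_le {χ : ℕ → ℂ} (hχ : CM χ) (n : ℕ) : ‖tw W χ n‖ ≤ |(W.LFunction n : ℝ)| := by
  rw [tw, norm_mul, Complex.norm_intCast]
  have h1 := hχ.norm_le n
  have h2 := abs_nonneg (W.LFunction n : ℝ)
  nlinarith

/-- The absolutely convergent series. -/
lemma summable_tw {χ : ℕ → ℂ} (hχ : CM χ) {s : ℂ} (hs : 3 / 2 < s.re) :
    LSeriesSummable (tw W χ) s := by
  have h1 : LSeriesSummable (fun n => (W.LFunction n : ℂ)) s := (lseries_euler W (s := s) hs).1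
  have h2 : Summable fun n => ‖LSeries.term (fun n => (W.LFunction n : ℂ)) s n‖ := h1.norm
  refine Summable.of_norm (h2.of_nonneg_of_le (fun n => norm_nonneg _) fun n => ?_)
  refine LSeries.norm_term_le s ?_
  rw [Complex.norm_intCast]
  exact norm_tw_le W hχ n

end

section

variable {K : Type*} [Field K] [NumberField K] (W : WeierstrassCurve K)

end

end Pool.Agent.Lib.MP_bf61d2_nt.MV59X
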