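import Mathlib
import Pool.Agent.Lib.MP_bf61d2_nt.Trim.X.MP_bdd9a3_nt.Mertens
import Pool.Agent.Lib.MP_bf61d2_nt.Trim.MV59.PW69a
import Pool.Agent.Lib.MP_bf61d2_nt.Trim.MV59.PWiv7
import Pool.Agent.Lib.MP_bf61d2_nt.Trim.MV59.Stmts

set_option autoImplicit false

/-!
Twisted mean values, the pointwise bound (the proof of module PW by helper69, with a completely
multiplicative twist), first part.
-/

namespace Pool.Agent.Lib.MP_bf61d2_nt.MV59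
end Pool.Agent.Lib.MP_bf61d2_nt.MV59

namespace Pool.Agent.Lib.MP_bf61d2_nt.MV59.PW69
end Pool.Agent.Lib.MP_bf61d2_nt.MV59.PW69

namespace Pool.Agent.Lib.MP_bf61d2_nt.MV59X

open MeasureTheory Set Filter Topology MV59

namespace PWX

open MV59.PW69 (J norm_AA_le_sum norm_AA_le_rpow norm_AA_mono_bound integrableOn_mul integrableOn_J J_eq subst abel)

/-- The convolution identity for the summatory function. -/
lemma conv {a : ℕ → ℂ} {L : ℕ → ℂ} (ha0 : a 0 = 0) (hL0 : L 0 = 0)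
    (h : ∀ n : ℕ, 1 ≤ n → a n * (Real.log n : ℂ) =
      ∑ p ∈ n.divisorsAntidiagonal, a p.1 * L p.2) (x : ℝ) :
    ∑ n ∈ Finset.Icc 1 ⌊x⌋₊, a n * (Real.log n : ℂ) =
      ∑ k ∈ Finset.Icc 1 ⌊x⌋₊, L k * AA a (x / k) := by
  set fa : ArithmeticFunction ℂ := ⟨a, ha0⟩ with hfa
  set fL : ArithmeticFunction ℂ := ⟨L, hL0⟩ with hfL
  have h1 := ArithmeticFunction.sum_Ioc_mul_eq_sum_sum fL fa ⌊x⌋₊
  have e : Finset.Ioc 0 ⌊x⌋₊ = Finset.Icc 1 ⌊x⌋₊ := rfl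
  rw [e] at h1
  have h2 : ∑ n ∈ Finset.Icc 1 ⌊x⌋₊, a n * (Real.log n : ℂ) =
      ∑ n ∈ Finset.Icc 1 ⌊x⌋₊, (fL * fa) n := by
    refine Finset.sum_congr rfl fun n hn => ?_
    rw [h n (Finset.mem_Icc.mp hn).1, mul_comm fL fa, ArithmeticFunction.mul_apply]
    rfl
  rw [h2, h1]
  refine Finset.sum_congr rfl fun k hk => ?_
  have h3 : ⌊x / (k : ℝ)⌋₊ = ⌊x⌋₊ / k := Nat.floor_div_natCast x k
  rw [AA, h3]
  rfl

/-- The main inequality. -/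
theorem main_ineq (hBT : StBT) : ∃ C : ℝ, 0 ≤ C ∧ ∀ (a : ℕ → ℂ) (c Λ : ℕ → ℂ)
    (x θ c₁ c₂ σ τ δ T : ℝ), 1 ≤ x → a 0 = 0 → Λ 0 = 0 → 0 < θ → 0 < δ → δ ≤ 1 / 2 →
    0 ≤ c₁ → 0 ≤ σ → 2 * (2 * δ) ^ (-3 : ℝ) ≤ T → T ≤ Real.sqrt x →
    (∀ k, ‖c k‖ ≤ c₁) → (∀ k, ¬ k.Prime → c k = 0) →
    (∑ k ∈ Finset.Icc 1 ⌊x⌋₊, ‖Λ k‖ * (k : ℝ) ^ (-(3 / 2) + θ) ≤ c₂) →
    (∀ n : ℕ, 1 ≤ n → a n * (Real.log n : ℂ) = ∑ p ∈ n.divisorsAntidiagonal,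
      a p.1 * (c p.2 * ((Real.sqrt p.2 * Real.log p.2 : ℝ) : ℂ) + Λ p.2)) →
    (∀ w : ℝ, Real.sqrt x ≤ w → w ≤ x → ‖AA a w‖ ≤ σ * w ^ (3 / 2 : ℝ)) →
    (∑ n ∈ Finset.Icc 1 ⌊x⌋₊, ‖a n‖ * (n : ℝ) ^ (-(3 / 2) : ℝ) ≤ τ) →
    ‖AA a x‖ * Real.log x ≤ x ^ (3 / 2 : ℝ) * (J a x + c₂ * (σ + τ * x ^ (-(θ / 2))) +
      c₁ * σ * (Real.log T + Real.log 4) + c₁ * C * (J a x + δ * τ)) := by
  classical
  obtain ⟨C, hC0, hC⟩ := PWiv hBT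
  refine ⟨C, hC0, ?_⟩
  intro a c Λ x θ c₁ c₂ σ τ δ T hx ha0 hΛ0 hθ hδ hδ2 hc₁ hσ0 hT hTx hc hcp hΛ hconv hσ hτ
  have hx0 : 0 < x := by linarith
  have hsx : 1 ≤ Real.sqrt x := Real.one_le_sqrt.mpr hx
  have hsx2 : Real.sqrt x * Real.sqrt x = x := Real.mul_self_sqrt hx0.le
  have hτ0 : 0 ≤ τ := le_trans (Finset.sum_nonneg fun n _ => by positivity) hτ
  have hX : 0 < x ^ (3 / 2 : ℝ) := Real.rpow_pos_of_pos hx0 _
  have hT2 : 2 ≤ T := by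
    refine le_trans ?_ hT
    have : 1 ≤ (2 * δ) ^ (-3 : ℝ) :=
      Real.one_le_rpow_of_pos_of_le_one_of_nonpos (by linarith) (by linarith) (by norm_num)
    linarith
  -- the bound for `A(x / k)`
  have hk1 : ∀ k : ℕ, 1 ≤ k → (k : ℝ) ≤ Real.sqrt x →
      ‖AA a (x / k)‖ ≤ σ * (x ^ (3 / 2 : ℝ) * (k : ℝ) ^ (-(3 / 2) : ℝ)) := by
    intro k hk hkx
    have hk0 : (0 : ℝ) < k := by exact_mod_cast hk
    have hk1 : (1 : ℝ) ≤ k := by exact_mod_cast hk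
    have h1 := hσ (x / k) (by rw [le_div_iff₀ hk0]; nlinarith) (div_le_self hx0.le hk1)
    have e : (x / (k : ℝ)) ^ (3 / 2 : ℝ) = x ^ (3 / 2 : ℝ) * (k : ℝ) ^ (-(3 / 2) : ℝ) := by
      rw [Real.div_rpow hx0.le hk0.le, Real.rpow_neg hk0.le, div_eq_mul_inv]
    rw [e] at h1
    exact h1
  have hk2 : ∀ k : ℕ, 1 ≤ k → ‖AA a (x / k)‖ ≤ τ * (x ^ (3 / 2 : ℝ) * (k : ℝ) ^ (-(3 / 2) : ℝ)) := by
    intro k hk
    have hk0 : (0 : ℝ) < k := by exact_mod_cast hk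
    have hk1 : (1 : ℝ) ≤ k := by exact_mod_cast hk
    have h1 := norm_AA_le_rpow (a := a) (s := 3 / 2) (by norm_num) hτ (w := x / k) (by positivity)
      (div_le_self hx0.le hk1)
    have e : (x / (k : ℝ)) ^ (3 / 2 : ℝ) = x ^ (3 / 2 : ℝ) * (k : ℝ) ^ (-(3 / 2) : ℝ) := by
      rw [Real.div_rpow hx0.le hk0.le, Real.rpow_neg hk0.le, div_eq_mul_inv]
    rw [e] at h1
    exact h1
  have hL0 : c 0 * ((Real.sqrt (0 : ℕ) * Real.log (0 : ℕ) : ℝ) : ℂ) + Λ 0 = 0 := by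
    rw [hΛ0]; simp
  have h1 := abel a ha0 hx
  rw [conv (L := fun k => c k * ((Real.sqrt k * Real.log k : ℝ) : ℂ) + Λ k) ha0 hL0 hconv x] at h1
  have h2 : ‖∑ k ∈ Finset.Icc 1 ⌊x⌋₊,
      (c k * ((Real.sqrt k * Real.log k : ℝ) : ℂ) + Λ k) * AA a (x / k)‖ ≤
      ∑ k ∈ Finset.Icc 1 ⌊x⌋₊, ‖c k‖ * Real.sqrt k * Real.log k * ‖AA a (x / k)‖ +
        ∑ k ∈ Finset.Icc 1 ⌊x⌋₊, ‖Λ k‖ * ‖AA a (x / k)‖ := by
    rw [← Finset.sum_add_distrib]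
    refine (norm_sum_le _ _).trans (Finset.sum_le_sum fun k hk => ?_)
    rw [norm_mul, ← add_mul]
    refine mul_le_mul_of_nonneg_right ?_ (norm_nonneg _)
    refine (norm_add_le _ _).trans (le_of_eq ?_)
    rw [norm_mul, Complex.norm_real, Real.norm_eq_abs, abs_mul, abs_of_nonneg (Real.sqrt_nonneg _),
      abs_of_nonneg (Real.log_natCast_nonneg k), mul_assoc]
  -- the part of `Λ`
  have h3 : ∑ k ∈ Finset.Icc 1 ⌊x⌋₊, ‖Λ k‖ * ‖AA a (x / k)‖ ≤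
      x ^ (3 / 2 : ℝ) * (c₂ * (σ + τ * x ^ (-(θ / 2)))) := by
    have h4 : ∀ k ∈ Finset.Icc 1 ⌊x⌋₊, ‖Λ k‖ * ‖AA a (x / k)‖ ≤
        ‖Λ k‖ * (k : ℝ) ^ (-(3 / 2) + θ) * (x ^ (3 / 2 : ℝ) * (σ + τ * x ^ (-(θ / 2)))) := by
      intro k hk
      have hk' := (Finset.mem_Icc.mp hk).1
      have hk0 : (0 : ℝ) < k := by exact_mod_cast hk'
      have hk1' : (1 : ℝ) ≤ k := by exact_mod_cast hk'
      rw [mul_assoc]
      refine mul_le_mul_of_nonneg_left ?_ (norm_nonneg _)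
      have e1 : (k : ℝ) ^ (-(3 / 2) + θ) = (k : ℝ) ^ (-(3 / 2) : ℝ) * (k : ℝ) ^ θ :=
        Real.rpow_add hk0 _ _
      have e2 : 1 ≤ (k : ℝ) ^ θ := Real.one_le_rpow hk1' hθ.le
      have e3 : 0 ≤ (k : ℝ) ^ (-(3 / 2) : ℝ) := by positivity
      have e4 : 0 ≤ x ^ (-(θ / 2)) := by positivity
      rcases le_or_gt (k : ℝ) (Real.sqrt x) with hkx | hkx
      · refine (hk1 k hk' hkx).trans ?_
        have e5 : 0 ≤ x ^ (3 / 2 : ℝ) * (k : ℝ) ^ (-(3 / 2) : ℝ) := by positivity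
        have e6 : σ ≤ (k : ℝ) ^ θ * (σ + τ * x ^ (-(θ / 2))) := by
          have : 0 ≤ τ * x ^ (-(θ / 2)) := mul_nonneg hτ0 e4
          nlinarith
        calc σ * (x ^ (3 / 2 : ℝ) * (k : ℝ) ^ (-(3 / 2) : ℝ)) ≤
              ((k : ℝ) ^ θ * (σ + τ * x ^ (-(θ / 2)))) *
                (x ^ (3 / 2 : ℝ) * (k : ℝ) ^ (-(3 / 2) : ℝ)) := mul_le_mul_of_nonneg_right e6 e5
          _ = _ := by rw [e1]; ring
      · refine (hk2 k hk').trans ?_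
        have e5 : 0 ≤ x ^ (3 / 2 : ℝ) * (k : ℝ) ^ (-(3 / 2) : ℝ) := by positivity
        have e7 : 1 ≤ (k : ℝ) ^ θ * x ^ (-(θ / 2)) := by
          have e8 : x ^ (θ / 2) ≤ (k : ℝ) ^ θ := by
            have e9 : x ^ (θ / 2) = (Real.sqrt x) ^ θ := by
              rw [Real.sqrt_eq_rpow, ← Real.rpow_mul hx0.le]
              congr 1
              ring
            rw [e9]
            exact Real.rpow_le_rpow (Real.sqrt_nonneg _) hkx.le hθ.le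
          rw [Real.rpow_neg hx0.le, ← div_eq_mul_inv, le_div_iff₀ (Real.rpow_pos_of_pos hx0 _),
            one_mul]
          exact e8
        have e6 : τ ≤ (k : ℝ) ^ θ * (σ + τ * x ^ (-(θ / 2))) := by
          have e10 : τ * 1 ≤ τ * ((k : ℝ) ^ θ * x ^ (-(θ / 2))) := mul_le_mul_of_nonneg_left e7 hτ0
          have e11 : 0 ≤ (k : ℝ) ^ θ * σ := mul_nonneg (by linarith) hσ0
          linarith
        calc τ * (x ^ (3 / 2 : ℝ) * (k : ℝ) ^ (-(3 / 2) : ℝ)) ≤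
              ((k : ℝ) ^ θ * (σ + τ * x ^ (-(θ / 2)))) *
                (x ^ (3 / 2 : ℝ) * (k : ℝ) ^ (-(3 / 2) : ℝ)) := mul_le_mul_of_nonneg_right e6 e5
          _ = _ := by rw [e1]; ring
    refine (Finset.sum_le_sum h4).trans ?_
    rw [← Finset.sum_mul]
    have h5 : 0 ≤ x ^ (3 / 2 : ℝ) * (σ + τ * x ^ (-(θ / 2))) := by positivity
    calc _ ≤ c₂ * (x ^ (3 / 2 : ℝ) * (σ + τ * x ^ (-(θ / 2)))) := mul_le_mul_of_nonneg_right hΛ h5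
      _ = _ := by ring
  -- the primes
  have h6 : ∑ k ∈ Finset.Icc 1 ⌊x⌋₊, ‖c k‖ * Real.sqrt k * Real.log k * ‖AA a (x / k)‖ ≤
      x ^ (3 / 2 : ℝ) * (c₁ * σ * (Real.log T + Real.log 4) + c₁ * C * (J a x + δ * τ)) := by
    have h7 : ∑ k ∈ Finset.Icc 1 ⌊x⌋₊, ‖c k‖ * Real.sqrt k * Real.log k * ‖AA a (x / k)‖ =
        ∑ k ∈ (Finset.Icc 1 ⌊x⌋₊).filter Nat.Prime,
          ‖c k‖ * Real.sqrt k * Real.log k * ‖AA a (x / k)‖ := by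
      rw [Finset.sum_filter]
      refine Finset.sum_congr rfl fun k _ => ?_
      split_ifs with hk
      · rfl
      · rw [hcp k hk, norm_zero]; ring
    have h8 : ∀ k : ℕ, ‖c k‖ * Real.sqrt k * Real.log k * ‖AA a (x / k)‖ ≤
        c₁ * ((k : ℝ) ^ (1 / 2 : ℝ) * Real.log k * ‖AA a (x / k)‖) := by
      intro k
      rw [Real.sqrt_eq_rpow]
      have h9 : 0 ≤ (k : ℝ) ^ (1 / 2 : ℝ) * Real.log k * ‖AA a (x / k)‖ := by
        have := Real.log_natCast_nonneg k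
        positivity
      calc _ = ‖c k‖ * ((k : ℝ) ^ (1 / 2 : ℝ) * Real.log k * ‖AA a (x / k)‖) := by ring
        _ ≤ _ := mul_le_mul_of_nonneg_right (hc k) h9
    rw [h7, ← Finset.sum_filter_add_sum_filter_not _ (fun k : ℕ => T < k)]
    have h10 : ∑ k ∈ ((Finset.Icc 1 ⌊x⌋₊).filter Nat.Prime).filter (fun k : ℕ => T < k),
        ‖c k‖ * Real.sqrt k * Real.log k * ‖AA a (x / k)‖ ≤
        x ^ (3 / 2 : ℝ) * (c₁ * C * (J a x + δ * τ)) := by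
      rw [Finset.filter_filter]
      refine (Finset.sum_le_sum fun k _ => h8 k).trans ?_
      rw [← Finset.mul_sum]
      have h11 := hC a x δ T hx hδ hδ2 hT
      rw [subst a hx] at h11
      have h12 : C * (x ^ (3 / 2 : ℝ) * J a x +
          δ * x ^ (3 / 2 : ℝ) * ∑ n ∈ Finset.Icc 1 ⌊x⌋₊, ‖a n‖ * (n : ℝ) ^ (-(3 / 2) : ℝ)) ≤
          C * (x ^ (3 / 2 : ℝ) * J a x + δ * x ^ (3 / 2 : ℝ) * τ) := by gcongr
      calc _ ≤ c₁ * (C * (x ^ (3 / 2 : ℝ) * J a x + δ * x ^ (3 / 2 : ℝ) * τ)) :=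
            mul_le_mul_of_nonneg_left (h11.trans h12) hc₁
        _ = _ := by ring
    have h13 : ∑ k ∈ ((Finset.Icc 1 ⌊x⌋₊).filter Nat.Prime).filter (fun k : ℕ => ¬ T < k),
        ‖c k‖ * Real.sqrt k * Real.log k * ‖AA a (x / k)‖ ≤
        x ^ (3 / 2 : ℝ) * (c₁ * σ * (Real.log T + Real.log 4)) := by
      have h14 : ∀ k ∈ ((Finset.Icc 1 ⌊x⌋₊).filter Nat.Prime).filter (fun k : ℕ => ¬ T < k),
          ‖c k‖ * Real.sqrt k * Real.log k * ‖AA a (x / k)‖ ≤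
          x ^ (3 / 2 : ℝ) * (c₁ * σ) * (Real.log k / k) := by
        intro k hk
        rw [Finset.mem_filter, Finset.mem_filter, Finset.mem_Icc, not_lt] at hk
        obtain ⟨⟨⟨hk1', -⟩, -⟩, hkT⟩ := hk
        have hk0 : (0 : ℝ) < k := by exact_mod_cast hk1'
        refine (h8 k).trans ?_
        have hlog := Real.log_natCast_nonneg k
        have h15 := hk1 k hk1' (hkT.trans hTx)
        have e1 : (k : ℝ) ^ (1 / 2 : ℝ) * (k : ℝ) ^ (-(3 / 2) : ℝ) = (k : ℝ)⁻¹ := by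
          rw [← Real.rpow_add hk0, ← Real.rpow_neg_one]
          norm_num
        calc c₁ * ((k : ℝ) ^ (1 / 2 : ℝ) * Real.log k * ‖AA a (x / k)‖) ≤
              c₁ * ((k : ℝ) ^ (1 / 2 : ℝ) * Real.log k *
                (σ * (x ^ (3 / 2 : ℝ) * (k : ℝ) ^ (-(3 / 2) : ℝ)))) := by gcongr
          _ = x ^ (3 / 2 : ℝ) * (c₁ * σ) * (Real.log k *
                ((k : ℝ) ^ (1 / 2 : ℝ) * (k : ℝ) ^ (-(3 / 2) : ℝ))) := by ring
          _ = _ := by rw [e1, ← div_eq_mul_inv (Real.log (k : ℝ))]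
      refine (Finset.sum_le_sum h14).trans ?_
      rw [← Finset.mul_sum, mul_assoc (x ^ (3 / 2 : ℝ))]
      refine mul_le_mul_of_nonneg_left ?_ hX.le
      refine mul_le_mul_of_nonneg_left ?_ (mul_nonneg hc₁ hσ0)
      have hfT : 1 ≤ ⌊T⌋₊ := Nat.one_le_floor_iff _ |>.mpr (by linarith)
      have h16 := MP_bdd9a3_nt.mertens_upper ⌊T⌋₊ hfT
      have h17 : ∑ k ∈ ((Finset.Icc 1 ⌊x⌋₊).filter Nat.Prime).filter (fun k : ℕ => ¬ T < k),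
          Real.log k / k ≤ ∑ p ∈ (Finset.Icc 1 ⌊T⌋₊).filter Nat.Prime, Real.log p / (p : ℝ) := by
        refine Finset.sum_le_sum_of_subset_of_nonneg ?_ fun p _ _ => ?_
        · intro k hk
          rw [Finset.mem_filter, Finset.mem_filter, Finset.mem_Icc, not_lt] at hk
          rw [Finset.mem_filter, Finset.mem_Icc]
          exact ⟨⟨hk.1.1.1, Nat.le_floor hk.2⟩, hk.1.2⟩
        · exact div_nonneg (Real.log_natCast_nonneg p) (Nat.cast_nonneg p)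
      have h18 : Real.log ⌊T⌋₊ ≤ Real.log T :=
        Real.log_le_log (by exact_mod_cast hfT) (Nat.floor_le (by linarith))
      linarith
    refine (add_le_add h10 h13).trans (le_of_eq ?_)
    ring
  calc ‖AA a x‖ * Real.log x ≤ _ := h1
    _ ≤ (∑ k ∈ Finset.Icc 1 ⌊x⌋₊, ‖c k‖ * Real.sqrt k * Real.log k * ‖AA a (x / k)‖ +
        ∑ k ∈ Finset.Icc 1 ⌊x⌋₊, ‖Λ k‖ * ‖AA a (x / k)‖) + x ^ (3 / 2 : ℝ) * J a x :=
        add_le_add h2 le_rfl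
    _ ≤ _ := by linarith [h3, h6]

end PWX

end Pool.Agent.Lib.MP_bf61d2_nt.MV59X
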